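import Pool.Agent.Work.MP_b44cb1_al.Full.Ty.Defs

/-!
# Ty/AL  (size S-M)  : properties of `aL`

`T : MTow P p n`, `2 ≤ u < n`, `i := u - 1 ≥ 1`, `i + 1 < n`.
* `aL_lay`: `ALay P p u (aL P p u)`. If `⁅P i, P i⁆ ≤ Kr P i` then `aL = P i`: `Kr ≤ P i`, `Gs P u = Gs P (i+1)` normalises
  `P i` (`WTow.gs_nz_self`), commutators by assumption, powers by `T.expo`. Otherwise `aL = Fr (p i) (P i)`:
  `fr_le`, `T.kfr`, `nz_fr`, `T.cen`, and `T.expo` (as `Fr ≤ P i`).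
* `aL_ab`: if `⁅P i, P i⁆ ≤ Kr P i` then `P (u-2)` does not centralise `aL / K`: `⁅P i, P (i-1)⁆ = P i` (`T.comm`) is not
  contained in `Kr P i`: otherwise `P i ≤ Kr P i ≤ Fr (p i) (P i)`; but `Fr p P ≠ P` for a nontrivial `p`-group
  (KIT lemma K6, hypothesis `h6`: `⊥ ⊔ Fr p P = P` would give `P = ⊥`), `T.nontriv`.
* `gap_layer`: if `¬ lkk P p κ a u` for all `u` in `[a, a + L)`, then with `b = a + κ`: for `b + 1 ≤ i`, `i + 1 < a + L`,
  `i + 1 < n`: layer `i` is not abelian modulo `K_i` (else `e = i - 1` would be a witness, by `aL_ab`), and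
  `⁅Fr (p i) (P i), P e⁆ ≤ Kr P i` for `b ≤ e < i` (as `aL P p (i+1) = Fr (p i) (P i)`).
-/

set_option autoImplicit false

namespace Pool.Agent.Work.MP_b44cb1_al

open Subgroup
open scoped commutatorElement

/-- KIT lemma K6 for the group `G`. -/
def K6p (G : Type*) [Group G] : Prop :=
  ∀ (p : ℕ) (P R : Subgroup G), p.Prime → IsPGroup p P → R ≤ P → P ≤ R ⊔ Fr p P → R = P

variable {G : Type*} [Group G] [Finite G] {P : ℕ → Subgroup G} {p : ℕ → ℕ} {n : ℕ}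

theorem MTow.aL_lay (T : MTow P p n) {u : ℕ} (h2 : 2 ≤ u) (hu : u < n) :
    ALay P p u (aL P p u) := by
  obtain ⟨i, rfl⟩ : ∃ i, u = i + 1 := ⟨u - 1, by omega⟩
  have hi1 : 1 ≤ i := by omega
  have hnz : Nz (Gs P (i + 1)) (P i) := T.toWTow.gs_nz_self (by omega)
  unfold aL ALay
  simp only [Nat.add_sub_cancel]
  split_ifs with hab
  · exact ⟨le_rfl, kr_le P i, hnz, hab, fun x hx => T.expo i hi1 hu x hx⟩
  · exact ⟨fr_le _ _, T.kfr i hu, nz_fr _ hnz, T.cen i hi1 hu,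
      fun x hx => T.expo i hi1 hu x (fr_le _ _ hx)⟩

theorem MTow.aL_ab (T : MTow P p n) (h6 : K6p G) {u : ℕ} (h2 : 2 ≤ u) (hu : u < n)
    (hab : ⁅P (u - 1), P (u - 1)⁆ ≤ Kr P (u - 1)) :
    ¬ ⁅aL P p u, P (u - 2)⁆ ≤ Kr P (u - 1) := by
  obtain ⟨i, rfl⟩ : ∃ i, u = i + 2 := ⟨u - 2, by omega⟩
  have e1 : i + 2 - 1 = i + 1 := by omega
  have e2 : i + 2 - 2 = i := by omega
  rw [e1] at hab
  unfold aL
  rw [e1, e2, if_pos hab, T.comm i (by omega)]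
  intro hle
  have h3 : P (i + 1) ≤ Fr (p (i + 1)) (P (i + 1)) := hle.trans (T.kfr (i + 1) hu)
  have h4 := h6 (p (i + 1)) (P (i + 1)) ⊥ (T.prime (i + 1) (by omega)) (T.pgrp (i + 1) (by omega))
    bot_le (h3.trans le_sup_right)
  exact T.nontriv (i + 1) (by omega) h4.symm

theorem MTow.gap_layer (T : MTow P p n) (h6 : K6p G) {κ a L i : ℕ}
    (hgap : ∀ u, a ≤ u → u < a + L → ¬ lkk P p κ a u) (h1 : a + κ + 1 ≤ i) (hi : i + 1 < a + L)
    (hn : i + 1 < n) :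
    ¬ ⁅P i, P i⁆ ≤ Kr P i ∧
      ∀ e, a + κ ≤ e → e < i → ⁅Fr (p i) (P i), P e⁆ ≤ Kr P i := by
  have hg := hgap (i + 1) (by omega) (by omega)
  have hna : ¬ ⁅P i, P i⁆ ≤ Kr P i := by
    intro hab
    apply hg
    have := T.aL_ab h6 (u := i + 1) (by omega) hn (by simpa using hab)
    refine ⟨i - 1, by omega, by omega, ?_⟩
    have e2 : i + 1 - 2 = i - 1 := by omega
    rw [e2] at this
    exact this
  refine ⟨hna, ?_⟩
  intro e he1 he2
  by_contra hcon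
  apply hg
  refine ⟨e, he1, by omega, ?_⟩
  have e3 : i + 1 - 1 = i := by omega
  unfold aL
  rw [e3, if_neg hna]
  exact hcon

end Pool.Agent.Work.MP_b44cb1_al
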