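import Mathlib

/-!
# Ty/Comb  (size S)  : chains or gaps

`lk c u` is a relation on naturals with `c' ≤ c → lk c u → lk c' u`. Let `n ≥ (T + 1) * (L + 1)`.
Induction on `T`, for towers starting at an arbitrary point `s` (prove: for all `s`, `n ≥ s + (T+1)*(L+1)`,
either a chain with `u 0 = s`, or a gap `a ≥ s`): `T = 0`: the chain `u = fun _ => s` (no condition; `s < n`).
Step: if some `u₁` with `s < u₁ ≤ s + L + 1` has `lk s u₁`, apply the induction hypothesis to `s' = u₁`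
(`n ≥ u₁ + (T+1)(L+1)`): a gap is a gap, a chain from `u₁` is prolonged by `u 0 = s`. Otherwise
`a = s + 1`: for `a ≤ u < a + L` we have `¬ lk s u`, so `¬ lk a u` because `s ≤ a`.
-/

set_option autoImplicit false

namespace Pool.Agent.Work.MP_b44cb1_al

private theorem chain_or_gap_aux (lk : ℕ → ℕ → Prop)
    (hmono : ∀ c c' u, c' ≤ c → lk c u → lk c' u) (L : ℕ) :
    ∀ T s n : ℕ, s + (T + 1) * (L + 1) ≤ n →
    (∃ u : ℕ → ℕ, u 0 = s ∧ u T < n ∧ ∀ k < T, u k < u (k + 1) ∧ lk (u k) (u (k + 1))) ∨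
      ∃ a, a + L ≤ n ∧ ∀ u, a ≤ u → u < a + L → ¬ lk a u := by
  intro T
  induction T with
  | zero =>
    intro s n hn
    refine Or.inl ⟨fun _ => s, rfl, ?_, ?_⟩
    · show s < n
      have : (0 + 1) * (L + 1) = L + 1 := by ring
      omega
    · intro k hk; omega
  | succ T ih =>
    intro s n hn
    have hexp : (T + 1 + 1) * (L + 1) = (T + 1) * (L + 1) + (L + 1) := by ring
    have hexp2 : (T + 1) * (L + 1) = T * (L + 1) + (L + 1) := by ring
    by_cases h : ∃ u₁, s < u₁ ∧ u₁ ≤ s + L + 1 ∧ lk s u₁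
    · obtain ⟨u₁, h1, h2, h3⟩ := h
      rcases ih u₁ n (by omega) with ⟨u, hu0, hu1, hu2⟩ | hgap
      · refine Or.inl ⟨fun k => if k = 0 then s else u (k - 1), by simp, by simpa using hu1, ?_⟩
        intro k hk
        rcases Nat.eq_zero_or_pos k with rfl | hk0
        · simp only [if_true, Nat.zero_add, one_ne_zero, if_false, Nat.sub_self, hu0]
          exact ⟨h1, h3⟩
        · obtain ⟨m, rfl⟩ : ∃ m, k = m + 1 := ⟨k - 1, by omega⟩
          simp only [Nat.add_eq_zero_iff, one_ne_zero, and_false, if_false, Nat.add_sub_cancel]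
          exact hu2 m (by omega)
      · exact Or.inr hgap
    · push Not at h
      refine Or.inr ⟨s + 1, by omega, ?_⟩
      intro u hu1 hu2 hl
      exact h u (by omega) (by omega) (hmono _ _ _ (by omega) hl)

theorem chain_or_gap (lk : ℕ → ℕ → Prop) (hmono : ∀ c c' u, c' ≤ c → lk c u → lk c' u)
    (T L n : ℕ) (hn : (T + 1) * (L + 1) ≤ n) :
    (∃ u : ℕ → ℕ, u T < n ∧ ∀ k < T, u k < u (k + 1) ∧ lk (u k) (u (k + 1))) ∨
      ∃ a, a + L ≤ n ∧ ∀ u, a ≤ u → u < a + L → ¬ lk a u := by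
  rcases chain_or_gap_aux lk hmono L T 0 n (by omega) with ⟨u, _, h1, h2⟩ | h
  · exact Or.inl ⟨u, h1, h2⟩
  · exact Or.inr h

end Pool.Agent.Work.MP_b44cb1_al
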