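import Pool.Agent.Work.MP_b44cb1_al.Full.Base

/-!
# Ty/Shift  (size S-M)  : passing to an interval of the tower

`T : MTow P p n`, `a + L ≤ n`, `P'' i := P (a + i)`, `p'' i := p (a + i)`.
* `shift_le`: `Gs P'' i ≤ Gs P (a + i)` (`gs_le_iff`).
* `shift`: `P''` is a weak tower of length `L`, and `Ech P'' i = P (a + i)` for `i < L` (induction, `T.comm`), so
  `Ech P'' (L-1) = P (a + (L-1)) ≠ ⊥` (`T.nontriv`).
* `sub_central`: let `T' : MTow Q q L` with `Q i ≤ P (a + i)`, `q i = p (a + i)` for `i < L`, and suppose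
  `⁅Fr (p (a+i)) (P (a+i)), P (a+e)⁆ ≤ Kr P (a+i)` for `1 ≤ i`, `i + 1 < L`, `e < i`. Then
  `⁅Fr (q i) (Q i), Gs Q i⁆ ≤ Kr Q i` for `1 ≤ i`, `i + 1 < L`. For `e < i`: `⁅Fr (q i) (Q i), Q e⁆ ≤ Kr P (a+i)` by
  `fr_mono` and `commutator_mono`, it is contained in `Q i` (as `Q e ≤ Gs Q i` normalises `Fr (q i) (Q i) ≤ Q i`), and
  centralises `P (a+i+1) ≥ Q (i+1)`, so it is `≤ Kr Q i`. The elements `g` with `⁅x, g⁆ ∈ Kr Q i` for all
  `x ∈ Fr (q i) (Q i)`, `g ∈ Gs Q i`, form a subgroup (`⁅x, g h⁆ = ⁅x,g⁆ g ⁅x,h⁆ g⁻¹`, `Gs Q i` normalises `Kr Q i`)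
  containing all `Q e`, `e < i`.
-/

set_option autoImplicit false

namespace Pool.Agent.Work.MP_b44cb1_al

open Subgroup
open scoped commutatorElement

variable {G : Type*} [Group G] [Finite G] {P : ℕ → Subgroup G} {p : ℕ → ℕ} {n : ℕ}

theorem MTow.shift (T : MTow P p n) {a L : ℕ} (hL : 1 ≤ L) (haL : a + L ≤ n) :
    WTow (fun i => P (a + i)) (fun i => p (a + i)) L ∧
      Ech (fun i => P (a + i)) (L - 1) ≠ ⊥ := by
  have hgs : ∀ i, Gs (fun i => P (a + i)) i ≤ Gs P (a + i) := by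
    intro i
    rw [gs_le_iff]
    intro j hj
    exact le_gs' P (by omega)
  refine ⟨⟨fun i hi => T.prime _ (by omega), fun i hi => T.pgrp _ (by omega),
    fun i hi => (T.norm (a + i) (by omega)).mono (hgs i),
    fun i hi => T.toWTow.cop_le (i := a + i) (by omega) (hgs i)⟩, ?_⟩
  have hE : ∀ i < L, Ech (fun i => P (a + i)) i = P (a + i) := by
    intro i
    induction i with
    | zero => intro _; rfl
    | succ i ih =>
      intro hi
      show ⁅P (a + (i + 1)), Ech (fun i => P (a + i)) i⁆ = P (a + (i + 1))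
      rw [ih (by omega)]
      exact T.comm (a + i) (by omega)
  rw [hE (L - 1) (by omega)]
  exact T.nontriv _ (by omega)

theorem MTow.sub_central {Q : ℕ → Subgroup G} {q : ℕ → ℕ} {a L : ℕ} (T' : MTow Q q L)
    (hQ : ∀ i < L, Q i ≤ P (a + i) ∧ q i = p (a + i))
    (hc : ∀ i, 1 ≤ i → i + 1 < L → ∀ e < i,
      ⁅Fr (p (a + i)) (P (a + i)), P (a + e)⁆ ≤ Kr P (a + i)) :
    ∀ i, 1 ≤ i → i + 1 < L → ⁅Fr (q i) (Q i), Gs Q i⁆ ≤ Kr Q i := by
  intro i h1 hi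
  have hK : Nz (Gs Q i) (Kr Q i) := (T'.toWTow.nz_kr hi).mono (gs_mono' Q (by omega))
  have hFn : Nz (Gs Q i) (Fr (q i) (Q i)) := nz_fr _ (T'.norm i (by omega))
  have hbase : ∀ e < i, ⁅Fr (q i) (Q i), Q e⁆ ≤ Kr Q i := by
    intro e he
    have hA : ⁅Fr (q i) (Q i), Q e⁆ ≤ Kr P (a + i) := by
      refine (commutator_mono ?_ (hQ e (by omega)).1).trans (hc i h1 hi e he)
      rw [(hQ i (by omega)).2]
      exact fr_mono _ (hQ i (by omega)).1
    have hB : ⁅Fr (q i) (Q i), Q e⁆ ≤ Q i :=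
      (comm_le_left (hFn.mono (le_gs' Q he))).trans (fr_le _ _)
    refine le_inf hB (hA.trans ?_)
    refine inf_le_right.trans ?_
    exact centralizer_le (hQ (i + 1) hi).1
  have hmem : ∀ x ∈ Fr (q i) (Q i), ∀ g ∈ Gs Q i, x * g * x⁻¹ * g⁻¹ ∈ Kr Q i := by
    let S : Subgroup G :=
      { carrier := {g | g ∈ Gs Q i ∧ ∀ x ∈ Fr (q i) (Q i), x * g * x⁻¹ * g⁻¹ ∈ Kr Q i}
        one_mem' := ⟨one_mem _, fun x _ => by simp⟩
        mul_mem' := by
          rintro g h ⟨hg, hg'⟩ ⟨hh, hh'⟩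
          refine ⟨mul_mem hg hh, fun x hx => ?_⟩
          have e : x * (g * h) * x⁻¹ * (g * h)⁻¹ =
              (x * g * x⁻¹ * g⁻¹) * (g * (x * h * x⁻¹ * h⁻¹) * g⁻¹) := by group
          rw [e]
          exact mul_mem (hg' x hx) (hK g hg _ (hh' x hx))
        inv_mem' := by
          rintro g ⟨hg, hg'⟩
          refine ⟨inv_mem hg, fun x hx => ?_⟩
          have e : x * g⁻¹ * x⁻¹ * g⁻¹⁻¹ = g⁻¹ * (x * g * x⁻¹ * g⁻¹)⁻¹ * g⁻¹⁻¹ := by group
          rw [e]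
          exact hK _ (inv_mem hg) _ (inv_mem (hg' x hx)) }
    have hS : Gs Q i ≤ S := by
      rw [gs_le_iff]
      intro e he y hy
      refine ⟨le_gs' Q he hy, fun x hx => ?_⟩
      exact hbase e he (commutator_mem_commutator hx hy)
    intro x hx g hg
    exact (hS hg).2 x hx
  rw [commutator_le]
  intro x hx g hg
  exact hmem x hx g hg

end Pool.Agent.Work.MP_b44cb1_al
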