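import Pool.Agent.Work.MP_b44cb1_al.Full.Base

/-!
# Ty/XCyc  (size M)  : a central centre is cyclic

`T : MTow P p n`, `1 ≤ i`, `i + 1 < n`, `Z := Fr (p i) (P i)`, `K := Kr P i`, `⁅Z, Gs P i⁆ ≤ K`, `¬ ⁅P i, P i⁆ ≤ K`. Claim:
`K.relIndex Z = p i`. `K ≤ Z` (`T.kfr`), `Z / K` is elementary abelian (`T.cen`, `T.expo`; `Z ≤ P i`), nontrivial
(`⁅P i, P i⁆ ≤ Z`). Every subgroup `U`, `K ≤ U ≤ Z`, is normalised by `P i` and by `Gs P i` (both act trivially on
`Z / K`), so by `Gs P (i+1)`; hence `X := P (i+1) ⊓ C(U)` is `Gs P (i+1)`-invariant and by `T.irr` (for `i + 1 < n`)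
either `X = P (i+1)`, i.e. `U ≤ Kr P i = K`, or `X ≤ Fr (p (i+1)) (P (i+1))`.
Suppose `K.relIndex Z ≠ p i`, so `Z / K` is noncyclic. By the hyperplane decomposition (KIT K12; or the elementary fact: a
noncyclic elementary abelian `p`-group acting on a nontrivial `q`-group `V`, `q ≠ p`, has an element outside the
kernel ... ) there is a hyperplane `U` of `Z` (`K ≤ U ≤ Z`, `U.relIndex Z = p i`, so `U ≠ K`) with `C_{P (i+1)}(U)` not
contained in `Fr (P (i+1))`: the abelian group `Z / K` acts on `V = P (i+1) / Fr`, over an algebraically closed field or by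
the decomposition `V = C_V(Z) ⊕ ⊕ C_V(U)` some hyperplane `U` has `C_V(U) ≠ 0` (if `C_V(Z) ≠ 0` any `U` works), and
`C_V(U)` is the image of `C_{P (i+1)}(U)` (KIT K3). Then `X ≰ Fr`, so `U ≤ K`, contradiction.
-/

set_option autoImplicit false

namespace Pool.Agent.Work.MP_b44cb1_al

open Subgroup
open scoped commutatorElement

private theorem xc_norm {V : Type*} [CommGroup V] {p : ℕ} (γ : MulAut V) (h : γ ^ p = 1) (v : V) :
    γ (∏ j ∈ Finset.range p, (γ ^ j) v) = ∏ j ∈ Finset.range p, (γ ^ j) v := by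
  rw [map_prod]
  have h1 : ∀ i ∈ Finset.range p, γ ((γ ^ i) v) = (γ ^ (i + 1)) v := by
    intro i _
    rw [pow_succ' γ i]; rfl
  rw [Finset.prod_congr rfl h1]
  have h2 := Finset.prod_range_succ (fun i => (γ ^ i) v) p
  have h3 := Finset.prod_range_succ' (fun i => (γ ^ i) v) p
  rw [h2] at h3
  simp only [h, pow_zero] at h3
  exact (mul_right_cancel h3).symm

private theorem xc_abs {V : Type*} [CommGroup V] {p : ℕ} (hp : p.Prime) (α β : MulAut V)
    (hc : Commute α β) (hα : α ^ p = 1) (hβ : β ^ p = 1)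
    (hfix : ∀ x y : ℕ, ¬ (p ∣ x ∧ p ∣ y) → ∀ v : V, (α ^ x * β ^ y) v = v → v = 1) (v : V) :
    v ^ p = 1 := by
  have hN : ∀ x y : ℕ, ¬ (p ∣ x ∧ p ∣ y) →
      ∏ j ∈ Finset.range p, ((α ^ x * β ^ y) ^ j) v = 1 := by
    intro x y hxy
    apply hfix x y hxy
    apply xc_norm
    have hc2 : Commute (α ^ x) (β ^ y) := hc.pow_pow x y
    rw [hc2.mul_pow, ← pow_mul, ← pow_mul, mul_comm x p, mul_comm y p, pow_mul, pow_mul, hα, hβ,
      one_pow, one_pow, mul_one]
  have hsum : ∏ y ∈ Finset.range p, ∏ j ∈ Finset.range p, ((α ^ 1 * β ^ y) ^ j) v = 1 := by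
    apply Finset.prod_eq_one
    intro y _
    apply hN
    rintro ⟨h1, -⟩
    exact hp.one_lt.ne' (Nat.dvd_one.1 h1)
  rw [Finset.prod_comm] at hsum
  have hj : ∀ j ∈ Finset.range p, j ≠ 0 →
      ∏ y ∈ Finset.range p, ((α ^ 1 * β ^ y) ^ j) v = 1 := by
    intro j hj hj0
    have h1 : ∀ y ∈ Finset.range p, ((α ^ 1 * β ^ y) ^ j) v =
        (α ^ j) (((α ^ 0 * β ^ j) ^ y) v) := by
      intro y _
      have hc2 : Commute (α ^ 1) (β ^ y) := hc.pow_pow 1 y
      rw [hc2.mul_pow, ← pow_mul, ← pow_mul, one_mul, pow_zero, one_mul, ← pow_mul, mul_comm y j]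
      rfl
    rw [Finset.prod_congr rfl h1, ← map_prod, hN 0 j, map_one]
    rintro ⟨-, h2⟩
    have := Nat.le_of_dvd (Nat.pos_of_ne_zero hj0) h2
    have := Finset.mem_range.1 hj
    omega
  rw [Finset.prod_eq_single 0 (fun j h1 h2 => hj j h1 h2)
    (fun h => absurd (Finset.mem_range.2 hp.pos) h)] at hsum
  simpa using hsum

private theorem xc_frGen {G : Type*} [Group G] [Finite G] {p : ℕ} (hp : p.Prime) {P : Subgroup G}
    (hP : IsPGroup p P) (h : P ≤ Fr p P) : P = ⊥ := by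
  haveI : Fact p.Prime := ⟨hp⟩
  by_contra hne
  have hRt : (⊥ : Subgroup P) ≠ ⊤ := by
    intro h1
    apply hne
    rw [eq_bot_iff]
    intro x hx
    have : (⟨x, hx⟩ : P) ∈ (⊥ : Subgroup P) := h1 ▸ mem_top _
    rw [mem_bot] at this ⊢
    exact congrArg Subtype.val this
  obtain h1 | ⟨M, hM, -⟩ := eq_top_or_exists_le_coatom (⊥ : Subgroup P)
  · exact hRt h1
  haveI : Group.IsNilpotent P := hP.isNilpotent
  haveI hMn : M.Normal :=
    NormalizerCondition.normal_of_coatom M Group.normalizerCondition_of_isNilpotent hM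
  have hQ : IsPGroup p (P ⧸ M) := hP.to_quotient M
  haveI hnt : Nontrivial (P ⧸ M) := by
    rw [QuotientGroup.nontrivial_iff]
    exact hM.1
  have hdvd : p ∣ Nat.card (P ⧸ M) := by
    obtain ⟨n, hn, hc⟩ := (hQ.nontrivial_iff_card).1 hnt
    rw [hc]
    exact dvd_pow_self p (by omega)
  obtain ⟨z, hz⟩ := exists_prime_orderOf_dvd_card' p hdvd
  have hz1 : zpowers z = ⊤ := by
    have h2 : M < (zpowers z).comap (QuotientGroup.mk' M) := by
      refine lt_of_le_of_ne ?_ ?_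
      · intro m hm
        rw [mem_comap, QuotientGroup.mk'_apply, (QuotientGroup.eq_one_iff m).2 hm]
        exact one_mem _
      · intro h3
        obtain ⟨y, rfl⟩ := QuotientGroup.mk'_surjective M z
        have h4 : y ∈ (zpowers (QuotientGroup.mk' M y)).comap (QuotientGroup.mk' M) :=
          mem_zpowers _
        rw [← h3] at h4
        have h5 : QuotientGroup.mk' M y = 1 := (QuotientGroup.eq_one_iff y).2 h4
        rw [h5, orderOf_one] at hz
        exact hp.one_lt.ne hz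
    have h3 := hM.2 _ h2
    rw [eq_top_iff]
    intro y _
    obtain ⟨y, rfl⟩ := QuotientGroup.mk'_surjective M y
    have : y ∈ (zpowers z).comap (QuotientGroup.mk' M) := h3 ▸ mem_top y
    exact this
  have hcard : Nat.card (P ⧸ M) = p := by
    rw [← hz, ← Nat.card_zpowers, hz1, Nat.card_congr (topEquiv (G := P ⧸ M)).toEquiv]
  have hcomm : ∀ a b : P ⧸ M, a * b = b * a := by
    intro a b
    have ha : a ∈ zpowers z := hz1 ▸ mem_top a
    have hb : b ∈ zpowers z := hz1 ▸ mem_top b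
    obtain ⟨i, rfl⟩ := mem_zpowers_iff.1 ha
    obtain ⟨j, rfl⟩ := mem_zpowers_iff.1 hb
    rw [← zpow_add, ← zpow_add, add_comm]
  have hFM : Fr p P ≤ M.map P.subtype := by
    refine sup_le (commutator_le.2 ?_) ?_
    · intro x hx y hy
      refine ⟨⁅(⟨x, hx⟩ : P), ⟨y, hy⟩⁆, ?_, rfl⟩
      have : (QuotientGroup.mk' M) ⁅(⟨x, hx⟩ : P), ⟨y, hy⟩⁆ = 1 := by
        rw [map_commutatorElement, commutatorElement_eq_one_iff_mul_comm]
        exact hcomm _ _
      exact (QuotientGroup.eq_one_iff _).1 this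
    · rw [closure_le]
      rintro _ ⟨x, hx, rfl⟩
      refine ⟨(⟨x, hx⟩ : P) ^ p, ?_, rfl⟩
      have : (QuotientGroup.mk' M) ((⟨x, hx⟩ : P) ^ p) = 1 := by
        rw [map_pow]
        conv_lhs => rw [← hcard]
        exact pow_card_eq_one'
      exact (QuotientGroup.eq_one_iff _).1 this
  have hPM : P ≤ M.map P.subtype := h.trans hFM
  apply hM.1
  rw [eq_top_iff]
  intro x _
  obtain ⟨y, hy, hxy⟩ := hPM x.2
  have : y = x := Subtype.ext hxy
  rwa [← this]

/-- A `p`-element `z` acts on a coset of a subgroup `F` of order prime to `p`. -/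
private theorem xc_coset {G : Type*} [Group G] [Finite G] {p : ℕ} (hp : p.Prime)
    {F W : Subgroup G} {z : G} (hz : ∃ k, z ^ p ^ k = 1) (hF : ¬ p ∣ Nat.card F)
    (hWF : Nz W F) (hzF : Nz (zpowers z) F) {v : G} (hv : v ∈ W)
    (h : z * v * z⁻¹ * v⁻¹ ∈ F) : ∃ f ∈ F, z * (f * v) = f * v * z := by
  haveI : Fact p.Prime := ⟨hp⟩
  -- the set `F v`
  let S : Set G := {w | w * v⁻¹ ∈ F}
  have hzS : ∀ g ∈ zpowers z, g * v * g⁻¹ * v⁻¹ ∈ F := by
    intro g hg
    obtain ⟨k, rfl⟩ := mem_zpowers_iff.1 hg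
    have hstep : ∀ x ∈ zpowers z, ∀ y ∈ zpowers z, x * v * x⁻¹ * v⁻¹ ∈ F →
        y * v * y⁻¹ * v⁻¹ ∈ F → (x * y) * v * (x * y)⁻¹ * v⁻¹ ∈ F := by
      intro x hx y _ h1 h2
      have e : (x * y) * v * (x * y)⁻¹ * v⁻¹ =
          (x * (y * v * y⁻¹ * v⁻¹) * x⁻¹) * (x * v * x⁻¹ * v⁻¹) := by group
      rw [e]
      exact mul_mem (hzF x hx _ h2) h1
    have hinv : z⁻¹ * v * z⁻¹⁻¹ * v⁻¹ ∈ F := by
      have e : z⁻¹ * v * z⁻¹⁻¹ * v⁻¹ = z⁻¹ * (z * v * z⁻¹ * v⁻¹)⁻¹ * z⁻¹⁻¹ := by group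
      rw [e]
      exact hzF _ (inv_mem (mem_zpowers z)) _ (inv_mem h)
    induction k using Int.induction_on with
    | zero => simp
    | succ k ih =>
      rw [zpow_add_one]
      exact hstep _ (zpow_mem (mem_zpowers z) _) _ (mem_zpowers z)
        (ih (zpow_mem (mem_zpowers z) _)) h
    | pred k ih =>
      rw [zpow_sub_one]
      exact hstep _ (zpow_mem (mem_zpowers z) _) _ (inv_mem (mem_zpowers z))
        (ih (zpow_mem (mem_zpowers z) _)) hinv
  have hSmem : ∀ g ∈ zpowers z, ∀ w ∈ S, g * w * g⁻¹ ∈ S := by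
    intro g hg w hw
    show g * w * g⁻¹ * v⁻¹ ∈ F
    have e : g * w * g⁻¹ * v⁻¹ = (g * (w * v⁻¹) * g⁻¹) * (g * v * g⁻¹ * v⁻¹) := by group
    rw [e]
    exact mul_mem (hzF g hg _ hw) (hzS g hg)
  letI act : MulAction (zpowers z) S :=
    { smul := fun g w => ⟨(g : G) * w * (g : G)⁻¹, hSmem g g.2 w w.2⟩
      one_smul := fun w => Subtype.ext (by
        show ((1 : zpowers z) : G) * w * ((1 : zpowers z) : G)⁻¹ = w
        simp)
      mul_smul := fun a b w => Subtype.ext (by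
        show ((a * b : zpowers z) : G) * w * ((a * b : zpowers z) : G)⁻¹ =
          a * (b * w * (b : G)⁻¹) * (a : G)⁻¹
        simp [mul_assoc]) }
  have hpg : IsPGroup p (zpowers z) := by
    obtain ⟨k, hk⟩ := hz
    intro g
    refine ⟨k, ?_⟩
    obtain ⟨g, hg⟩ := g
    obtain ⟨m, rfl⟩ := mem_zpowers_iff.1 hg
    apply Subtype.ext
    show (z ^ m) ^ p ^ k = 1
    rw [← zpow_natCast, zpow_comm, zpow_natCast, hk, one_zpow]
  have hcard : Nat.card S = Nat.card F := by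
    refine Nat.card_congr ⟨fun w => ⟨w * v⁻¹, w.2⟩, fun f => ⟨f * v, ?_⟩, ?_, ?_⟩
    · show (f : G) * v * v⁻¹ ∈ F
      simp
    · intro w; apply Subtype.ext; simp
    · intro f; apply Subtype.ext; simp
  have hmod := hpg.card_modEq_card_fixedPoints S
  have hne : (MulAction.fixedPoints (zpowers z) S).Nonempty := by
    by_contra hemp
    rw [Set.not_nonempty_iff_eq_empty] at hemp
    rw [hemp, hcard] at hmod
    apply hF
    have : Nat.card (∅ : Set S) = 0 := by simp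
    rw [this] at hmod
    exact (Nat.modEq_zero_iff_dvd).1 hmod
  obtain ⟨w, hw⟩ := hne
  have hw1 := hw ⟨z, mem_zpowers z⟩
  have hw2 : z * (w : G) * z⁻¹ = w := congrArg Subtype.val hw1
  refine ⟨w * v⁻¹, w.2, ?_⟩
  rw [inv_mul_cancel_right]
  exact (mul_inv_eq_iff_eq_mul.1 hw2)

variable {G : Type*} [Group G] [Finite G] {P : ℕ → Subgroup G} {p : ℕ → ℕ} {n : ℕ}

theorem MTow.xlay_of (T : MTow P p n) {i : ℕ} (h1 : 1 ≤ i) (hi : i + 1 < n)
    (hna : ¬ ⁅P i, P i⁆ ≤ Kr P i) (hc : ⁅Fr (p i) (P i), Gs P i⁆ ≤ Kr P i) : XLay P p i := by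
  refine ⟨hna, hc, ?_⟩
  have hp : (p i).Prime := T.prime i (by omega)
  have hq : (p (i + 1)).Prime := T.prime (i + 1) hi
  have hPiG : P i ≤ Gs P (i + 1) := le_gs' P (by omega)
  have hqp : p (i + 1) ≠ p i := by
    intro he
    apply T.cop (i + 1) hi
    haveI : Fact (p i).Prime := ⟨hp⟩
    rw [he]
    obtain ⟨k, hk⟩ := IsPGroup.iff_card.1 (T.pgrp i (by omega))
    have hk0 : k ≠ 0 := by
      rintro rfl
      rw [pow_zero] at hk
      exact T.nontriv i (by omega) (Subgroup.card_eq_one.1 hk)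
    have : p i ∣ Nat.card (P i) := by rw [hk]; exact dvd_pow_self _ hk0
    exact this.trans (Subgroup.card_dvd_of_le hPiG)
  have hZP : Fr (p i) (P i) ≤ P i := fr_le _ _
  have hKZ : Kr P i ≤ Fr (p i) (P i) := T.kfr i hi
  have hcen := T.cen i h1 hi
  have hexp := T.expo i h1 hi
  have hKn : Nz (Gs P (i + 1)) (Kr P i) := T.toWTow.nz_kr hi
  have hZn : Nz (Gs P (i + 1)) (Fr (p i) (P i)) := nz_fr _ (T.toWTow.gs_nz_self (by omega))
  have hZG : Fr (p i) (P i) ≤ Gs P (i + 1) := hZP.trans hPiG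
  have hKG : Kr P i ≤ Gs P (i + 1) := hKZ.trans hZG
  -- elements of `Z \ K` have centraliser in `P (i+1)` inside the Frattini subgroup
  have hcent : ∀ z ∈ Fr (p i) (P i), z ∉ Kr P i → ∀ v ∈ P (i + 1), z * v = v * z →
      v ∈ Fr (p (i + 1)) (P (i + 1)) := by
    intro z hz hzK v hv hzv
    have hUZ : Kr P i ⊔ zpowers z ≤ Fr (p i) (P i) := sup_le hKZ ((zpowers_le).2 hz)
    have hUn : Nz (Gs P (i + 1)) (Kr P i ⊔ zpowers z) := by
      rw [nz_iff, gs_succ]
      refine sup_le ?_ ?_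
      · rw [← nz_iff]
        intro g hg u hu
        have h2 : ⁅u, g⁆ ∈ Kr P i := hc (commutator_mem_commutator (hUZ hu) hg)
        have e : g * u * g⁻¹ = ⁅u, g⁆⁻¹ * u := by rw [commutatorElement_def]; group
        rw [e]
        exact mul_mem (mem_sup_left (inv_mem h2)) hu
      · rw [← nz_iff]
        intro g hg u hu
        have h2 : ⁅u, g⁆ ∈ Kr P i := hcen (commutator_mem_commutator (hUZ hu) hg)
        have e : g * u * g⁻¹ = ⁅u, g⁆⁻¹ * u := by rw [commutatorElement_def]; group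
        rw [e]
        exact mul_mem (mem_sup_left (inv_mem h2)) hu
    have hXn : Nz (Gs P (i + 1)) (P (i + 1) ⊓ centralizer ((Kr P i ⊔ zpowers z : Subgroup G) : Set G)) :=
      (T.norm (i + 1) hi).inf (nz_cent hUn)
    have hvX : v ∈ P (i + 1) ⊓ centralizer ((Kr P i ⊔ zpowers z : Subgroup G) : Set G) := by
      refine mem_inf.2 ⟨hv, ?_⟩
      rw [← zpowers_le, le_centralizer_iff, sup_le_iff]
      constructor
      · intro k hk
        rw [mem_centralizer_iff]
        intro w hw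
        obtain ⟨m, rfl⟩ := mem_zpowers_iff.1 hw
        have : Commute k v := kr_comm hk hv
        exact (this.zpow_right m).symm
      · rw [zpowers_le, mem_centralizer_iff]
        intro w hw
        obtain ⟨m, rfl⟩ := mem_zpowers_iff.1 hw
        have : Commute z v := hzv
        exact (this.zpow_right m).symm
    rcases T.irr (i + 1) hi _ inf_le_left hXn with h2 | h2
    · exfalso
      apply hzK
      refine mem_inf.2 ⟨hZP hz, ?_⟩
      rw [mem_centralizer_iff]
      intro w hw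
      have hw' : w ∈ P (i + 1) := hw
      rw [← h2] at hw'
      have := mem_centralizer_iff.1 hw'.2 z (mem_sup_right (mem_zpowers z))
      exact this.symm
    · exact h2 hvX
  -- structure of `Z / K`
  haveI hKN : ((Kr P i).subgroupOf (Fr (p i) (P i))).Normal :=
    (hKn.mono hZG).subgroupOf_normal
  set Q := (Fr (p i) (P i)) ⧸ ((Kr P i).subgroupOf (Fr (p i) (P i))) with hQdef
  let π : Fr (p i) (P i) →* Q := QuotientGroup.mk' _
  have hπ : ∀ x : Fr (p i) (P i), π x = 1 ↔ (x : G) ∈ Kr P i := fun x => by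
    rw [← MonoidHom.mem_ker, QuotientGroup.ker_mk', mem_subgroupOf]
  have hπs : Function.Surjective π := QuotientGroup.mk'_surjective _
  have hQp : ∀ x : Q, x ^ (p i) = 1 := by
    intro x
    obtain ⟨x, rfl⟩ := hπs x
    rw [← map_pow, hπ]
    exact hexp _ (hZP x.2)
  have hQc : ∀ x y : Q, x * y = y * x := by
    intro x y
    obtain ⟨x, rfl⟩ := hπs x
    obtain ⟨y, rfl⟩ := hπs y
    rw [← commutatorElement_eq_one_iff_mul_comm, ← map_commutatorElement, hπ]
    exact hcen (commutator_mem_commutator x.2 (hZP y.2))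
  have hrel : (Kr P i).relIndex (Fr (p i) (P i)) = Nat.card Q := rfl
  rw [hrel]
  -- a nontrivial element
  obtain ⟨a, ha, haK⟩ : ∃ a ∈ Fr (p i) (P i), a ∉ Kr P i := by
    by_contra hcon
    push Not at hcon
    exact hna ((comm_le_fr (p i) (P i)).trans hcon)
  have ha1 : π ⟨a, ha⟩ ≠ 1 := by
    rw [Ne, hπ]; exact haK
  have horda : orderOf (π ⟨a, ha⟩) = p i := by
    have := orderOf_dvd_of_pow_eq_one (hQp (π ⟨a, ha⟩))
    rcases (Nat.dvd_prime hp).1 this with h2 | h2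
    · exact absurd (orderOf_eq_one_iff.1 h2) ha1
    · exact h2
  by_cases htop : ∀ b : Q, b ∈ zpowers (π ⟨a, ha⟩)
  · rw [← horda, ← Nat.card_zpowers, (eq_top_iff' (zpowers (π ⟨a, ha⟩))).2 htop]
    exact (Nat.card_congr (topEquiv (G := Q)).toEquiv).symm
  exfalso
  push Not at htop
  obtain ⟨b', hb'⟩ := htop
  obtain ⟨⟨b, hb⟩, rfl⟩ := hπs b'
  have hxy : ∀ x y : ℕ, a ^ x * b ^ y ∈ Kr P i → p i ∣ x ∧ p i ∣ y := by
    intro x y hmem
    have h2 : (π ⟨a, ha⟩) ^ x * (π ⟨b, hb⟩) ^ y = 1 := by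
      rw [← map_pow, ← map_pow, ← map_mul, hπ]
      exact hmem
    have hy : p i ∣ y := by
      by_contra hy
      apply hb'
      have hcop : Nat.Coprime (orderOf (π ⟨b, hb⟩)) y := by
        have := orderOf_dvd_of_pow_eq_one (hQp (π ⟨b, hb⟩))
        rcases (Nat.dvd_prime hp).1 this with h3 | h3
        · rw [h3]; exact Nat.coprime_one_left y
        · rw [h3]; exact (Nat.Prime.coprime_iff_not_dvd hp).2 hy
      have h4 : (π ⟨b, hb⟩) ^ y ∈ zpowers (π ⟨a, ha⟩) := by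
        rw [← eq_inv_of_mul_eq_one_right h2 |>.symm]
        exact inv_mem (pow_mem (mem_zpowers _) _)
      obtain ⟨m, hm⟩ := exists_pow_eq_self_of_coprime (x := π ⟨b, hb⟩) (n := y) hcop.symm
      rw [← hm]
      exact pow_mem h4 m
    refine ⟨?_, hy⟩
    obtain ⟨c, rfl⟩ := hy
    rw [pow_mul, hQp, one_pow, mul_one] at h2
    rw [← horda]
    exact orderOf_dvd_of_pow_eq_one h2
  -- action on `V`
  have hFn : Nz (Gs P (i + 1)) (Fr (p (i + 1)) (P (i + 1))) := nz_fr _ (T.norm (i + 1) hi)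
  have hFn' : Nz (P (i + 1)) (Fr (p (i + 1)) (P (i + 1))) := nz_fr _ (nz_self _)
  set W := P (i + 1) with hW
  set F := Fr (p (i + 1)) W with hF
  haveI hFN : (F.subgroupOf W).Normal := hFn'.subgroupOf_normal
  letI hVc : CommGroup (W ⧸ F.subgroupOf W) :=
    { (inferInstance : Group (W ⧸ F.subgroupOf W)) with
      mul_comm := by
        intro x y
        obtain ⟨x, rfl⟩ := QuotientGroup.mk'_surjective _ x
        obtain ⟨y, rfl⟩ := QuotientGroup.mk'_surjective _ y
        rw [← commutatorElement_eq_one_iff_mul_comm, ← map_commutatorElement,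
          ← MonoidHom.mem_ker, QuotientGroup.ker_mk', mem_subgroupOf]
        exact comm_mem_fr x.2 y.2 }
  let cW : Gs P (i + 1) → (W →* W) := fun g =>
    { toFun := fun w => ⟨(g : G) * w * (g : G)⁻¹, T.norm (i + 1) hi g g.2 w w.2⟩
      map_one' := Subtype.ext (by simp)
      map_mul' := fun x y => Subtype.ext (by
        show (g : G) * (x * y) * (g : G)⁻¹ = (g : G) * x * (g : G)⁻¹ * ((g : G) * y * (g : G)⁻¹)
        group) }
  have hcW : ∀ g : Gs P (i + 1), F.subgroupOf W ≤ (F.subgroupOf W).comap (cW g) := by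
    intro g w hw
    exact hFn g g.2 _ hw
  letI actV : MulDistribMulAction (Gs P (i + 1)) (W ⧸ F.subgroupOf W) :=
    { smul := fun g => QuotientGroup.map _ _ (cW g) (hcW g)
      one_smul := fun q => by
        obtain ⟨w, rfl⟩ := QuotientGroup.mk_surjective q
        show (QuotientGroup.mk (cW 1 w) : W ⧸ F.subgroupOf W) = QuotientGroup.mk w
        congr 1
        apply Subtype.ext
        show ((1 : Gs P (i + 1)) : G) * w * ((1 : Gs P (i + 1)) : G)⁻¹ = w
        simp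
      mul_smul := fun x y q => by
        obtain ⟨w, rfl⟩ := QuotientGroup.mk_surjective q
        show (QuotientGroup.mk (cW (x * y) w) : W ⧸ F.subgroupOf W) =
          QuotientGroup.mk (cW x (cW y w))
        congr 1
        apply Subtype.ext
        show ((x * y : Gs P (i + 1)) : G) * w * ((x * y : Gs P (i + 1)) : G)⁻¹ =
          x * (y * w * (y : G)⁻¹) * (x : G)⁻¹
        simp [mul_assoc]
      smul_mul := fun g x y => map_mul (QuotientGroup.map _ _ (cW g) (hcW g)) x y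
      smul_one := fun g => map_one (QuotientGroup.map _ _ (cW g) (hcW g)) }
  let φ : Gs P (i + 1) →* MulAut (W ⧸ F.subgroupOf W) := MulDistribMulAction.toMulAut _ _
  have hφ : ∀ (g : Gs P (i + 1)) (w : W),
      φ g (QuotientGroup.mk w) = QuotientGroup.mk (cW g w) := fun g w => rfl
  have hφK : ∀ g : Gs P (i + 1), (g : G) ∈ Kr P i → φ g = 1 := by
    intro g hg
    ext q
    obtain ⟨w, rfl⟩ := QuotientGroup.mk_surjective q
    rw [hφ, MulAut.one_apply]
    congr 1
    apply Subtype.ext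
    show (g : G) * w * (g : G)⁻¹ = w
    rw [kr_comm hg w.2, mul_inv_cancel_right]
  let a₁ : Gs P (i + 1) := ⟨a, hZG ha⟩
  let b₁ : Gs P (i + 1) := ⟨b, hZG hb⟩
  have hαp : φ a₁ ^ (p i) = 1 := by
    rw [← map_pow]
    exact hφK _ (hexp a (hZP ha))
  have hβp : φ b₁ ^ (p i) = 1 := by
    rw [← map_pow]
    exact hφK _ (hexp b (hZP hb))
  have hαβ : Commute (φ a₁) (φ b₁) := by
    show φ a₁ * φ b₁ = φ b₁ * φ a₁
    rw [← commutatorElement_eq_one_iff_mul_comm, ← map_commutatorElement]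
    exact hφK _ (hcen (commutator_mem_commutator ha (hZP hb)))
  have hFcard : ¬ p i ∣ Nat.card F := by
    haveI : Fact (p (i + 1)).Prime := ⟨hq⟩
    obtain ⟨k, hk⟩ := IsPGroup.iff_card.1 ((T.pgrp (i + 1) hi).to_le (fr_le (p (i + 1)) W))
    rw [hk]
    intro hd
    have := hp.dvd_of_dvd_pow hd
    exact hqp ((Nat.prime_dvd_prime_iff_eq hp hq).1 this).symm
  have hfix : ∀ x y : ℕ, ¬ (p i ∣ x ∧ p i ∣ y) → ∀ v : W ⧸ F.subgroupOf W,
      (φ a₁ ^ x * φ b₁ ^ y) v = v → v = 1 := by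
    intro x y hnd v hv
    obtain ⟨w, rfl⟩ := QuotientGroup.mk_surjective v
    rw [← map_pow, ← map_pow, ← map_mul, hφ, eq_comm, QuotientGroup.eq, mem_subgroupOf] at hv
    have hzZ : a ^ x * b ^ y ∈ Fr (p i) (P i) := mul_mem (pow_mem ha x) (pow_mem hb y)
    set z : G := a ^ x * b ^ y with hz
    have hv2 : (w : G)⁻¹ * (z * w * z⁻¹) ∈ F := hv
    have hv3 : z * w * z⁻¹ * (w : G)⁻¹ ∈ F := by
      have e : z * w * z⁻¹ * (w : G)⁻¹ = w * ((w : G)⁻¹ * (z * w * z⁻¹)) * (w : G)⁻¹ := by group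
      rw [e]
      exact hFn' w w.2 _ hv2
    have hzK : z ∉ Kr P i := fun h => hnd (hxy x y h)
    have hzp : ∃ k, z ^ (p i) ^ k = 1 := by
      obtain ⟨k, hk⟩ := T.pgrp i (by omega) ⟨z, hZP hzZ⟩
      exact ⟨k, congrArg Subtype.val hk⟩
    obtain ⟨f, hf, hfz⟩ := xc_coset hp hzp hFcard hFn'
      (hFn.mono ((zpowers_le).2 (hZG hzZ))) w.2 hv3
    have h3 : f * w ∈ F := by
      apply hcent z hzZ hzK (f * w) _ hfz
      exact mul_mem (fr_le _ _ hf) w.2
    have h4 : (w : G) ∈ F := by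
      have := mul_mem (inv_mem hf) h3
      rwa [inv_mul_cancel_left] at this
    exact (QuotientGroup.eq_one_iff _).2 h4
  have hVp := xc_abs hp (φ a₁) (φ b₁) hαβ hαp hβp hfix
  have hVq : ∀ v : W ⧸ F.subgroupOf W, v ^ (p (i + 1)) = 1 := by
    intro v
    obtain ⟨w, rfl⟩ := QuotientGroup.mk_surjective v
    exact (QuotientGroup.eq_one_iff (w ^ (p (i + 1)))).2 (pow_mem_fr (p := p (i + 1)) w.2)
  have hV1 : ∀ v : W ⧸ F.subgroupOf W, v = 1 := by
    intro v
    have h2 : orderOf v ∣ Nat.gcd (p i) (p (i + 1)) :=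
      Nat.dvd_gcd (orderOf_dvd_of_pow_eq_one (hVp v)) (orderOf_dvd_of_pow_eq_one (hVq v))
    rw [(Nat.coprime_primes hp hq).2 hqp.symm] at h2
    exact orderOf_eq_one_iff.1 (Nat.dvd_one.1 h2)
  apply T.nontriv (i + 1) hi
  apply xc_frGen hq (T.pgrp (i + 1) hi)
  intro w hw
  have h9 : (QuotientGroup.mk (⟨w, hw⟩ : W) : W ⧸ F.subgroupOf W) = 1 := hV1 _
  exact (QuotientGroup.eq_one_iff (⟨w, hw⟩ : W)).1 h9

end Pool.Agent.Work.MP_b44cb1_al
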