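import Pool.Agent.Work.MP_b44cb1_al.Full.MT.Exist
import Pool.Agent.Work.MP_b44cb1_al.Full.MT.Irr
import Pool.Agent.Work.MP_b44cb1_al.Full.Ty.Comb
import Pool.Agent.Work.MP_b44cb1_al.Full.Ty.Shift
import Pool.Agent.Work.MP_b44cb1_al.Full.Ty.XCyc

/-!
# Ty/Dich : the dichotomy (assembly)
-/

set_option autoImplicit false

namespace Pool.Agent.Work.MP_b44cb1_al

open Subgroup
open scoped commutatorElement

/-- Lemma (L) for the group `G` (block L). -/
def LemLp (h : ℕ) (G : Type*) [Group G] : Prop :=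
  ∀ (P : ℕ → Subgroup G) (p : ℕ → ℕ) (n : ℕ), MTow P p n → (∀ i < n, 2 < p i) →
    ∀ (c e u : ℕ) (A : Subgroup G), u < n → ALay P p u A → c + 2 * h + 3 ≤ e → e + 2 ≤ u →
      ¬ ⁅A, P e⁆ ≤ Kr P (u - 1) → ∃ U : Subgroup G, HLink P p c u A U

/-- `T` links of the first kind in succession. -/
def Chn1 {G : Type*} [Group G] (P : ℕ → Subgroup G) (p : ℕ → ℕ) (n T : ℕ) : Prop :=
  ∃ (u : ℕ → ℕ) (A U : ℕ → Subgroup G), u T < n ∧
    ∀ k < T, HLink P p (u k) (u (k + 1)) (A k) (U k)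

/-- `T` consecutive extraspecial layers. -/
def IntX {G : Type*} [Group G] (P : ℕ → Subgroup G) (p : ℕ → ℕ) (n T : ℕ) : Prop :=
  ∃ c, 1 ≤ c ∧ c + T < n ∧ ∀ i, c ≤ i → i < c + T → XLay P p i

variable {G : Type*} [Group G] [Finite G]

theorem chn1_of_chain {h : ℕ} (hL : LemLp h G) {P : ℕ → Subgroup G} {p : ℕ → ℕ} {n T : ℕ}
    (M : MTow P p n) (hodd : ∀ i < n, 2 < p i) {u : ℕ → ℕ} (hu : u T < n)
    (hk : ∀ k < T, u k < u (k + 1) ∧ lkk P p (2 * h + 3) (u k) (u (k + 1))) :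
    Chn1 P p n T := by
  have hlt : ∀ k ≤ T, u k < n := by
    intro k hkT
    obtain ⟨d, rfl⟩ : ∃ d, T = k + d := ⟨T - k, by omega⟩
    have : ∀ d', d' ≤ d → u k ≤ u (k + d') := by
      intro d'
      induction d' with
      | zero => intro _; exact le_rfl
      | succ d' ih =>
        intro hd'
        exact (ih (by omega)).trans (hk (k + d') (by omega)).1.le
    exact (this d le_rfl).trans_lt hu
  have key : ∀ k, k < T → ∃ U : Subgroup G,
      HLink P p (u k) (u (k + 1)) (aL P p (u (k + 1))) U := by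
    intro k hkT
    obtain ⟨h1, e, h2, h3, h4⟩ := hk k hkT
    exact hL P p n M hodd (u k) e (u (k + 1)) _ (hlt _ (by omega))
      (M.aL_lay (by omega) (hlt _ (by omega))) (by omega) h3 h4
  classical
  refine ⟨u, fun k => aL P p (u (k + 1)), fun k => if hk : k < T then (key k hk).choose else ⊥,
    hu, ?_⟩
  intro k hkT
  simp only [hkT, dite_true]
  exact (key k hkT).choose_spec

theorem dich (h T1 T2 : ℕ) : ∃ n0 : ℕ, ∀ (G : Type) [Group G] [Finite G],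
    K4p G → K5p G → K6p G → K7p G → LemLp h G →
    ∀ (P : ℕ → Subgroup G) (p : ℕ → ℕ) (n : ℕ), n0 ≤ n → WTow P p n → (∀ i < n, 2 < p i) →
      Ech P (n - 1) ≠ ⊥ →
      ∃ (Q : ℕ → Subgroup G) (q : ℕ → ℕ) (n' : ℕ), MTow Q q n' ∧
        (∀ i < n', ∃ j < n, Q i ≤ P j ∧ q i = p j) ∧ (Chn1 Q q n' T1 ∨ IntX Q q n' T2) := by
  set κ := 2 * h + 3 with hκ
  set L2 := T2 + κ + 2 with hL2
  set L1 := (T1 + 1) * (L2 + 1) with hL1
  refine ⟨(T1 + 1) * (L1 + κ + 1), ?_⟩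
  intro G _ _ h4 h5 h6 h7 hL P p n hn T hodd hc
  obtain ⟨Q, hQP, MQ⟩ := exists_minT T hc
  have TQ : MTow Q p n := MQ.mtow h4 h5 h6 h7 hodd
  rcases chain_or_gap (fun c u => lkk Q p κ c u) (fun c c' u => lkk_mono Q p κ c c' u) T1
    (L1 + κ) n hn with ⟨u, hu, hk⟩ | ⟨a, ha, hgap⟩
  · exact ⟨Q, p, n, TQ, fun i hi => ⟨i, hi, hQP i hi, rfl⟩,
      Or.inl (chn1_of_chain hL TQ hodd hu hk)⟩
  · have hL1pos : 1 ≤ L1 := Nat.mul_pos (by omega) (by omega)
    obtain ⟨hW, hE⟩ := TQ.shift (a := a + κ) (L := L1) hL1pos (by omega)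
    obtain ⟨R, hRQ, MR⟩ := exists_minT hW hE
    have TR : MTow R (fun i => p (a + κ + i)) L1 :=
      MR.mtow h4 h5 h6 h7 (fun i hi => hodd _ (by omega))
    have hcen : ∀ i, 1 ≤ i → i + 1 < L1 →
        ⁅Fr (p (a + κ + i)) (R i), Gs R i⁆ ≤ Kr R i :=
      TR.sub_central (P := Q) (p := p) (a := a + κ) (fun i hi => ⟨hRQ i hi, rfl⟩)
        (fun i h1 hi e he =>
        (TQ.gap_layer h6 (i := a + κ + i) hgap (by omega) (by omega) (by omega)).2
          (a + κ + e) (by omega) (by omega))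
    have hlay : ∀ i < L1, ∃ j < n, R i ≤ P j ∧ p (a + κ + i) = p j := by
      intro i hi
      exact ⟨a + κ + i, by omega, (hRQ i hi).trans (hQP _ (by omega)), rfl⟩
    rcases chain_or_gap (fun c u => lkk R (fun i => p (a + κ + i)) κ c u)
      (fun c c' u => lkk_mono R _ κ c c' u) T1 L2 L1 le_rfl with ⟨u, hu, hk⟩ | ⟨b, hb, hgap'⟩
    · exact ⟨R, _, L1, TR, hlay,
        Or.inl (chn1_of_chain hL TR (fun i hi => hodd _ (by omega)) hu hk)⟩
    · refine ⟨R, _, L1, TR, hlay, Or.inr ⟨b + κ + 1, by omega, by omega, ?_⟩⟩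
      intro i hi1 hi2
      have hg := TR.gap_layer h6 (i := i) hgap' (by omega) (by omega) (by omega)
      exact TR.xlay_of (by omega) (by omega) hg.1 (hcen i (by omega) (by omega))

end Pool.Agent.Work.MP_b44cb1_al
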