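import Pool.Agent.Work.MP_b44cb1_al.Full.Base

/-!
# Ty/Defs : the abelian section used at layer `u` (definitions)
-/

set_option autoImplicit false

namespace Pool.Agent.Work.MP_b44cb1_al

open Subgroup
open scoped commutatorElement

variable {G : Type*} [Group G]

/-- `A / K_(u-1)` is an elementary abelian central subgroup of `P_(u-1) / K_(u-1)`, invariant under
`Gs P u`. -/
def ALay (P : ℕ → Subgroup G) (p : ℕ → ℕ) (u : ℕ) (A : Subgroup G) : Prop :=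
  A ≤ P (u - 1) ∧ Kr P (u - 1) ≤ A ∧ Nz (Gs P u) A ∧ ⁅A, P (u - 1)⁆ ≤ Kr P (u - 1) ∧
    ∀ x ∈ A, x ^ (p (u - 1)) ∈ Kr P (u - 1)

open Classical in
/-- `P_(u-1)` if it is abelian modulo `K_(u-1)`, and `Fr(P_(u-1))` otherwise. -/
noncomputable def aL (P : ℕ → Subgroup G) (p : ℕ → ℕ) (u : ℕ) : Subgroup G :=
  if ⁅P (u - 1), P (u - 1)⁆ ≤ Kr P (u - 1) then P (u - 1) else Fr (p (u - 1)) (P (u - 1))

/-- `P_e`, `c + κ ≤ e ≤ u - 2`, acts nontrivially on `aL P p u / K_(u-1)`. -/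
def lkk (P : ℕ → Subgroup G) (p : ℕ → ℕ) (κ c u : ℕ) : Prop :=
  ∃ e, c + κ ≤ e ∧ e + 2 ≤ u ∧ ¬ ⁅aL P p u, P e⁆ ≤ Kr P (u - 1)

theorem lkk_mono (P : ℕ → Subgroup G) (p : ℕ → ℕ) (κ : ℕ) (c c' u : ℕ) (h : c' ≤ c)
    (hl : lkk P p κ c u) : lkk P p κ c' u := by
  obtain ⟨e, h1, h2, h3⟩ := hl
  exact ⟨e, by omega, h2, h3⟩

end Pool.Agent.Work.MP_b44cb1_al
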